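import Pool.Agent.H85.HZ.Pot

/-!
# Measures of growth `r ^ (N - 2 + β)` have Hölder continuous potentials (Carleson)
-/

set_option autoImplicit false

namespace Pool.Agent.H85.HZ

open MeasureTheory Filter Topology Metric Set Pool.Agent.H.MP_19b229_an
open scoped ENNReal NNReal

variable {N : ℕ}

/-- the profile of the kernel -/
noncomputable def gg (N : ℕ) (t : ℝ) : ℝ := if N = 2 then -Real.log t else t ^ (2 - N : ℝ)

lemma gg_diff (hN : 2 ≤ N) {γ t u ρ : ℝ} (hγ : 0 < γ) (hγ1 : γ ≤ 1) (ht : 0 < t) (htu : t ≤ u)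
    (hρ : u - t ≤ ρ) : |gg N t - gg N u| ≤ N / γ * (ρ ^ γ * t ^ (2 - N - γ : ℝ)) := by
  have hu : 0 < u := ht.trans_le htu
  have hρ0 : 0 ≤ ρ := by linarith
  have hz : ρ ^ γ * t ^ (2 - N - γ : ℝ) = (ρ / t) ^ γ * t ^ (2 - N : ℝ) := by
    rw [Real.rpow_sub ht, Real.div_rpow hρ0 ht.le]
    ring
  have hN2 : (2 : ℝ) ≤ N := by exact_mod_cast hN
  rw [hz]
  unfold gg
  split_ifs with e
  · subst e
    have h1 : |-Real.log t - -Real.log u| = Real.log (u / t) := by
      rw [Real.log_div hu.ne' ht.ne', abs_of_nonneg]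
      · ring
      · have := Real.log_le_log ht htu
        linarith
    rw [h1]
    have hw : 0 < u / t := by positivity
    have h2 : Real.log (u / t) * γ ≤ (ρ / t) ^ γ := by
      have h3 := Real.log_le_sub_one_of_pos (Real.rpow_pos_of_pos hw γ)
      rw [Real.log_rpow hw] at h3
      have h4 : (u / t) ^ γ ≤ 1 + (ρ / t) ^ γ := by
        have h5 : u / t ≤ 1 + ρ / t := by
          rw [div_le_iff₀ ht, add_mul, div_mul_cancel₀ _ ht.ne']
          linarith
        refine (Real.rpow_le_rpow hw.le h5 hγ.le).trans ?_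
        have := Real.rpow_add_le_add_rpow (zero_le_one' ℝ) (div_nonneg hρ0 ht.le) hγ.le hγ1
        rwa [Real.one_rpow] at this
      linarith
    have h0 : 0 ≤ (ρ / t) ^ γ := by positivity
    have h5 : t ^ (2 - (2 : ℕ) : ℝ) = 1 := by norm_num
    rw [h5, mul_one, div_mul_eq_mul_div, le_div_iff₀ hγ]
    push_cast
    linarith
  · obtain ⟨m, rfl⟩ : ∃ m, N = m + 2 := ⟨N - 2, by omega⟩
    have hm : 1 ≤ m := by omega
    have hm' : (1 : ℝ) ≤ m := by exact_mod_cast hm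
    have e1 : ∀ x : ℝ, 0 < x → x ^ (2 - (m + 2 : ℕ) : ℝ) = (x ^ m)⁻¹ := fun x hx => by
      rw [← Real.rpow_natCast, ← Real.rpow_neg hx.le]
      congr 1
      push_cast
      ring
    rw [e1 t ht, e1 u hu]
    have htm : 0 < t ^ m := by positivity
    have hum : 0 < u ^ m := by positivity
    have e2 : (t ^ m)⁻¹ - (u ^ m)⁻¹ = (1 - (t / u) ^ m) * (t ^ m)⁻¹ := by
      rw [div_pow]
      field_simp
    have h1 : (t / u) ^ m ≤ 1 := pow_le_one₀ (by positivity) ((div_le_one hu).2 htu)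
    have h2 : 1 - (t / u) ^ m ≤ m * ((u - t) / u) := by
      have h3 := one_add_mul_le_pow (a := -((u - t) / u)) (by
        have : (u - t) / u ≤ 1 := (div_le_one hu).2 (by linarith)
        linarith) m
      have h4 : 1 + -((u - t) / u) = t / u := by
        field_simp
        ring
      rw [h4] at h3
      linarith
    have h3 : 1 - (t / u) ^ m ≤ m * (ρ / t) ^ γ := by
      have hy : (u - t) / u ≤ ρ / t := by
        have : 0 ≤ u - t := by linarith
        gcongr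
      have hp : 0 ≤ (t / u) ^ m := by positivity
      rcases le_or_gt 1 (ρ / t) with h5 | h5
      · have h6 : 1 ≤ (ρ / t) ^ γ := Real.one_le_rpow h5 hγ.le
        nlinarith
      · have h7 : 0 ≤ ρ / t := by positivity
        have h6 : ρ / t ≤ (ρ / t) ^ γ := Real.self_le_rpow_of_le_one h7 h5.le hγ1
        refine h2.trans ?_
        gcongr
        exact hy.trans h6
    rw [e2, abs_of_nonneg (mul_nonneg (by linarith) (by positivity))]
    have h6 : (0 : ℝ) ≤ (ρ / t) ^ γ := by positivity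
    have h7 : (m : ℝ) ≤ ((m + 2 : ℕ) : ℝ) / γ := by
      rw [le_div_iff₀ hγ]
      push_cast
      nlinarith
    calc (1 - (t / u) ^ m) * (t ^ m)⁻¹ ≤ (m * (ρ / t) ^ γ) * (t ^ m)⁻¹ := by gcongr
      _ ≤ (((m + 2 : ℕ) : ℝ) / γ * (ρ / t) ^ γ) * (t ^ m)⁻¹ := by gcongr
      _ = _ := by ring

/-- The majorant. -/
noncomputable def Ph (N : ℕ) (γ ρ t : ℝ) : ℝ :=
  if t ≤ ρ then N / γ * (ρ ^ γ * t ^ (2 - N - γ : ℝ)) else N * (ρ * t ^ (1 - N : ℝ))

lemma Ph_nonneg {γ ρ t : ℝ} (hγ : 0 < γ) (hρ : 0 ≤ ρ) (ht : 0 ≤ t) : 0 ≤ Ph N γ ρ t := by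
  unfold Ph
  split_ifs <;> positivity

lemma gg_le (hN : 2 ≤ N) {γ t u ρ : ℝ} (hγ : 0 < γ) (hγ1 : γ ≤ 1) (hρ0 : 0 ≤ ρ) (ht : 0 < t)
    (hu : 0 < u) (hρ : |u - t| ≤ ρ) : |gg N t - gg N u| ≤ Ph N γ ρ t + Ph N γ ρ u := by
  have key : ∀ t u : ℝ, 0 < t → t ≤ u → u - t ≤ ρ → |gg N t - gg N u| ≤ Ph N γ ρ t := by
    intro t u ht htu h
    unfold Ph
    split_ifs with e
    · exact gg_diff hN hγ hγ1 ht htu h
    · have := gg_diff hN one_pos le_rfl ht htu h
      rw [Real.rpow_one, div_one, show (2 - N - 1 : ℝ) = 1 - N by ring] at this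
      exact this
  rcases le_total t u with h | h
  · have := key t u ht h ((le_abs_self _).trans hρ)
    have := Ph_nonneg (N := N) hγ hρ0 hu.le
    linarith
  · have h1 := key u t hu h (by rw [abs_sub_comm] at hρ; exact (le_abs_self _).trans hρ)
    rw [abs_sub_comm] at h1
    have := Ph_nonneg (N := N) hγ hρ0 ht.le
    linarith

/-- dyadic majorant -/
lemma Ph_dyadic (hN : 2 ≤ N) {γ ρ t : ℝ} (hγ : 0 < γ) (hρ : 0 < ρ) (ht : 0 ≤ t) :
    ENNReal.ofReal (Ph N γ ρ t) ≤ ∑' k : ℕ,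
      ((if t ≤ (1 / 2) ^ k * ρ then
        ENNReal.ofReal (N / γ * (ρ ^ γ * ((1 / 2) ^ (k + 1) * ρ) ^ (2 - N - γ : ℝ))) else 0) +
      (if t ≤ 2 ^ (k + 1) * ρ then ENNReal.ofReal (N * (ρ * (2 ^ k * ρ) ^ (1 - N : ℝ))) else 0)) := by
  have hN2 : (2 : ℝ) ≤ N := by exact_mod_cast hN
  rcases ht.eq_or_lt with rfl | ht
  · have : Ph N γ ρ 0 = 0 := by
      unfold Ph
      rw [if_pos hρ.le, Real.zero_rpow (by linarith), mul_zero, mul_zero]
    rw [this, ENNReal.ofReal_zero]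
    exact bot_le
  by_cases h : t ≤ ρ
  · obtain ⟨k, hk1, hk2⟩ := exists_nat_pow_near_of_lt_one (x := t / ρ) (y := 1 / 2) (by positivity)
      ((div_le_one hρ).2 h) (by norm_num) (by norm_num)
    rw [lt_div_iff₀ hρ] at hk1
    rw [div_le_iff₀ hρ] at hk2
    refine le_trans ?_ (ENNReal.le_tsum k)
    rw [if_pos hk2]
    refine le_trans ?_ le_self_add
    refine ENNReal.ofReal_le_ofReal ?_
    unfold Ph
    rw [if_pos h]
    gcongr N / γ * (ρ ^ γ * ?_)
    exact Real.rpow_le_rpow_of_nonpos (by positivity) hk1.le (by linarith)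
  · push Not at h
    obtain ⟨k, hk1, hk2⟩ := exists_nat_pow_near (x := t / ρ) (y := 2)
      ((one_le_div hρ).2 h.le) (by norm_num)
    rw [le_div_iff₀ hρ] at hk1
    rw [div_lt_iff₀ hρ] at hk2
    refine le_trans ?_ (ENNReal.le_tsum k)
    rw [if_pos hk2.le]
    refine le_trans ?_ le_add_self
    refine ENNReal.ofReal_le_ofReal ?_
    unfold Ph
    rw [if_neg (not_le.2 h)]
    gcongr N * (ρ * ?_)
    exact Real.rpow_le_rpow_of_nonpos (by positivity) hk1 (by linarith)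

/-- The growth condition. -/
def Growth (p : Measure (E N)) (C s : ℝ) : Prop :=
  ∀ (x : E N) (r : ℝ), 0 < r → p.real (closedBall x r) ≤ C * r ^ s

lemma geo_sum {A r : ℝ} (hA : 0 ≤ A) (h0 : 0 ≤ r) (h1 : r < 1) :
    ∑' k : ℕ, ENNReal.ofReal (A * r ^ k) = ENNReal.ofReal (A * (1 - r)⁻¹) := by
  rw [← ENNReal.ofReal_tsum_of_nonneg (fun k => by positivity)
    ((summable_geometric_of_lt_one h0 h1).mul_left A), tsum_mul_left,
    tsum_geometric_of_lt_one h0 h1]

lemma int_bound (hN : 2 ≤ N) {β γ C : ℝ} (hγ : 0 < γ) (hγβ : γ < β) (h1 : β < 1) (hC : 0 ≤ C) :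
    ∃ M : ℝ, 0 ≤ M ∧ ∀ (p : Measure (E N)) [IsFiniteMeasure p], Growth p C (N - 2 + β) →
      ∀ (x : E N) (ρ : ℝ), 0 < ρ →
        ∫⁻ y, ENNReal.ofReal (Ph N γ ρ ‖x - y‖) ∂p ≤ ENNReal.ofReal (M * ρ ^ β) := by
  have hN2 : (2 : ℝ) ≤ N := by exact_mod_cast hN
  set r1 : ℝ := (1 / 2) ^ (β - γ) with hr1
  set r2 : ℝ := (1 / 2) ^ (1 - β) with hr2
  have hr1' : r1 < 1 := Real.rpow_lt_one (by norm_num) (by norm_num) (by linarith)
  have hr2' : r2 < 1 := Real.rpow_lt_one (by norm_num) (by norm_num) (by linarith)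
  have hr10 : 0 ≤ r1 := by positivity
  have hr20 : 0 ≤ r2 := by positivity
  have hs1 : 0 < 1 - r1 := by linarith
  have hs2 : 0 < 1 - r2 := by linarith
  set M1 : ℝ := N / γ * (1 / 2) ^ (2 - N - γ : ℝ) * C with hM1
  set M2 : ℝ := N * 2 ^ (N - 2 + β : ℝ) * C with hM2
  have hM10 : 0 ≤ M1 := by positivity
  have hM20 : 0 ≤ M2 := by positivity
  refine ⟨M1 * (1 - r1)⁻¹ + M2 * (1 - r2)⁻¹, by positivity, fun p _ hp x ρ hρ => ?_⟩
  have hmeas : ∀ R : ℝ, MeasurableSet {y : E N | ‖x - y‖ ≤ R} := fun R =>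
    measurableSet_le (by fun_prop) measurable_const
  have hball : ∀ R : ℝ, 0 < R → p {y : E N | ‖x - y‖ ≤ R} ≤
      ENNReal.ofReal (C * R ^ (N - 2 + β : ℝ)) := fun R hR => by
    have e : {y : E N | ‖x - y‖ ≤ R} = closedBall x R := by
      ext y
      rw [mem_closedBall, dist_comm, dist_eq_norm]
      rfl
    rw [e, ← ofReal_measureReal]
    exact ENNReal.ofReal_le_ofReal (hp x R hR)
  have hterm : ∀ (R c : ℝ), ∫⁻ y, (if ‖x - y‖ ≤ R then ENNReal.ofReal c else 0) ∂p =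
      ENNReal.ofReal c * p {y : E N | ‖x - y‖ ≤ R} := fun R c => by
    rw [← lintegral_indicator_const (hmeas R)]
    rfl
  calc ∫⁻ y, ENNReal.ofReal (Ph N γ ρ ‖x - y‖) ∂p
      ≤ ∫⁻ y, ∑' k : ℕ, ((if ‖x - y‖ ≤ (1 / 2) ^ k * ρ then
        ENNReal.ofReal (N / γ * (ρ ^ γ * ((1 / 2) ^ (k + 1) * ρ) ^ (2 - N - γ : ℝ))) else 0) +
      (if ‖x - y‖ ≤ 2 ^ (k + 1) * ρ then
        ENNReal.ofReal (N * (ρ * (2 ^ k * ρ) ^ (1 - N : ℝ))) else 0)) ∂p :=
        lintegral_mono fun y => Ph_dyadic hN hγ hρ (norm_nonneg _)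
    _ = ∑' k : ℕ, (ENNReal.ofReal (N / γ * (ρ ^ γ * ((1 / 2) ^ (k + 1) * ρ) ^ (2 - N - γ : ℝ))) *
        p {y : E N | ‖x - y‖ ≤ (1 / 2) ^ k * ρ} +
        ENNReal.ofReal (N * (ρ * (2 ^ k * ρ) ^ (1 - N : ℝ))) *
        p {y : E N | ‖x - y‖ ≤ 2 ^ (k + 1) * ρ}) := by
        have hi : ∀ (R c : ℝ), Measurable fun y : E N =>
            if ‖x - y‖ ≤ R then ENNReal.ofReal c else 0 := fun R c =>
          Measurable.ite (hmeas R) measurable_const measurable_const
        rw [lintegral_tsum]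
        · congr 1
          funext k
          rw [lintegral_add_left (hi _ _), hterm, hterm]
        · intro k
          exact ((hi _ _).add (hi _ _)).aemeasurable
    _ ≤ ∑' k : ℕ, (ENNReal.ofReal (M1 * ρ ^ β * r1 ^ k) + ENNReal.ofReal (M2 * ρ ^ β * r2 ^ k)) := by
        refine ENNReal.tsum_le_tsum fun k => add_le_add ?_ ?_
        · refine (mul_le_mul_right (hball _ (by positivity)) _).trans_eq ?_
          rw [← ENNReal.ofReal_mul (by positivity)]
          congr 1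
          have e1 : ((1 / 2 : ℝ) ^ (k + 1) * ρ) ^ (2 - N - γ : ℝ) =
              (1 / 2) ^ (2 - N - γ : ℝ) * ((1 / 2 : ℝ) ^ k) ^ (2 - N - γ : ℝ) *
                ρ ^ (2 - N - γ : ℝ) := by
            rw [pow_succ, Real.mul_rpow (by positivity) hρ.le,
              Real.mul_rpow (by positivity) (by norm_num)]
            ring
          have e2 : ((1 / 2 : ℝ) ^ k * ρ) ^ (N - 2 + β : ℝ) =
              ((1 / 2 : ℝ) ^ k) ^ (N - 2 + β : ℝ) * ρ ^ (N - 2 + β : ℝ) :=
            Real.mul_rpow (by positivity) hρ.le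
          have e3 : ρ ^ β = ρ ^ γ * ρ ^ (2 - N - γ : ℝ) * ρ ^ (N - 2 + β : ℝ) := by
            rw [← Real.rpow_add hρ, ← Real.rpow_add hρ]
            congr 1
            ring
          have e4 : r1 ^ k = ((1 / 2 : ℝ) ^ k) ^ (2 - N - γ : ℝ) *
              ((1 / 2 : ℝ) ^ k) ^ (N - 2 + β : ℝ) := by
            rw [← Real.rpow_add (by positivity), hr1, ← Real.rpow_natCast,
              ← Real.rpow_natCast, ← Real.rpow_mul (by norm_num), ← Real.rpow_mul (by norm_num)]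
            congr 1
            ring
          rw [e1, e2, e3, e4, hM1]
          ring
        · refine (mul_le_mul_right (hball _ (by positivity)) _).trans_eq ?_
          rw [← ENNReal.ofReal_mul (by positivity)]
          congr 1
          have e1 : ((2 : ℝ) ^ k * ρ) ^ (1 - N : ℝ) =
              ((2 : ℝ) ^ k) ^ (1 - N : ℝ) * ρ ^ (1 - N : ℝ) :=
            Real.mul_rpow (by positivity) hρ.le
          have e2 : ((2 : ℝ) ^ (k + 1) * ρ) ^ (N - 2 + β : ℝ) =
              2 ^ (N - 2 + β : ℝ) * ((2 : ℝ) ^ k) ^ (N - 2 + β : ℝ) * ρ ^ (N - 2 + β : ℝ) := by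
            rw [pow_succ, Real.mul_rpow (by positivity) hρ.le,
              Real.mul_rpow (by positivity) (by norm_num)]
            ring
          have e3 : ρ ^ β = ρ * ρ ^ (1 - N : ℝ) * ρ ^ (N - 2 + β : ℝ) := by
            rw [mul_assoc, ← Real.rpow_add hρ]
            nth_rewrite 2 [← Real.rpow_one ρ]
            rw [← Real.rpow_add hρ]
            congr 1
            ring
          have e4 : r2 ^ k = ((2 : ℝ) ^ k) ^ (1 - N : ℝ) * ((2 : ℝ) ^ k) ^ (N - 2 + β : ℝ) := by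
            have : (1 / 2 : ℝ) = 2 ^ (-1 : ℝ) := by
              rw [Real.rpow_neg_one]
              norm_num
            rw [← Real.rpow_add (by positivity), hr2, this, ← Real.rpow_natCast,
              ← Real.rpow_natCast, ← Real.rpow_mul (by norm_num), ← Real.rpow_mul (by norm_num),
              ← Real.rpow_mul (by norm_num)]
            congr 1
            ring
          rw [e1, e2, e3, e4, hM2]
          ring
    _ = ENNReal.ofReal (M1 * ρ ^ β * (1 - r1)⁻¹) + ENNReal.ofReal (M2 * ρ ^ β * (1 - r2)⁻¹) := by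
        rw [ENNReal.tsum_add, geo_sum (by positivity) hr10 hr1', geo_sum (by positivity) hr20 hr2']
    _ = _ := by
        rw [← ENNReal.ofReal_add (by positivity) (by positivity)]
        congr 1
        ring

lemma Growth.null {p : Measure (E N)} [IsFiniteMeasure p] {C s : ℝ} (hs : 0 < s)
    (hp : Growth p C s) (x : E N) : p {x} = 0 := by
  have h1 : p.real {x} ≤ 0 := by
    have t : Tendsto (fun r : ℝ => C * r ^ s) (𝓝[>] 0) (𝓝 (C * 0 ^ s)) :=
      tendsto_nhdsWithin_of_tendsto_nhds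
        ((Real.continuousAt_rpow_const 0 s (Or.inr hs.le)).tendsto.const_mul C)
    rw [Real.zero_rpow hs.ne', mul_zero] at t
    refine ge_of_tendsto t ?_
    filter_upwards [self_mem_nhdsWithin] with r hr
    have hr' : 0 < r := hr
    exact (measureReal_mono (by simpa using hr'.le)).trans (hp x r hr')
  have h2 := ofReal_measureReal (μ := p) (s := {x})
  rw [← h2, ENNReal.ofReal_eq_zero]
  exact h1

lemma Ph_meas {γ ρ : ℝ} : Measurable (Ph N γ ρ) := by
  unfold Ph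
  refine Measurable.ite (measurableSet_le measurable_id measurable_const) ?_ ?_ <;> fun_prop

/-- Carleson's theorem. -/
theorem carl (hN : 2 ≤ N) {β C : ℝ} (h0 : 0 < β) (h1 : β < 1) (hC : 0 ≤ C) :
    ∃ M : ℝ, 0 ≤ M ∧ ∀ (p : Measure (E N)) [IsFiniteMeasure p] (R : ℝ), (∀ᵐ y ∂p, ‖y‖ ≤ R) →
      Growth p C (N - 2 + β) → (∀ x, Integrable (fun y => Gam N (x - y)) p) ∧
      ∀ x z, |∫ y, Gam N (x - y) ∂p - ∫ y, Gam N (z - y) ∂p| ≤ M * dist x z ^ β := by
  have hN2 : (2 : ℝ) ≤ N := by exact_mod_cast hN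
  obtain ⟨M, hM0, hM⟩ := int_bound hN (γ := β / 2) (by positivity) (by linarith) h1 hC
  have hs : (0 : ℝ) < N - 2 + β := by linarith
  refine ⟨M + M, by positivity, fun p _ R hR hp => ?_⟩
  have hγ : 0 < β / 2 := by positivity
  have hγ1 : β / 2 ≤ 1 := by linarith
  have hne : ∀ x, ∀ᵐ y ∂p, y ≠ x := fun x => by
    rw [ae_iff]
    simpa using hp.null hs x
  have hPi : ∀ x ρ, 0 < ρ → Integrable (fun y => Ph N (β / 2) ρ ‖x - y‖) p := by
    intro x ρ hρ
    refine ⟨(Ph_meas.comp (by fun_prop)).aestronglyMeasurable, ?_⟩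
    rw [hasFiniteIntegral_iff_ofReal (Eventually.of_forall fun y =>
      Ph_nonneg hγ hρ.le (norm_nonneg _))]
    exact (hM p hp x ρ hρ).trans_lt ENNReal.ofReal_lt_top
  have hPint : ∀ x ρ, 0 < ρ → ∫ y, Ph N (β / 2) ρ ‖x - y‖ ∂p ≤ M * ρ ^ β := by
    intro x ρ hρ
    rw [integral_eq_lintegral_of_nonneg_ae (Eventually.of_forall fun y =>
      Ph_nonneg hγ hρ.le (norm_nonneg _)) (hPi x ρ hρ).1]
    exact ENNReal.toReal_le_of_le_ofReal (by positivity) (hM p hp x ρ hρ)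
  have hG : ∀ v : E N, Gam N v = gg N ‖v‖ := fun v => rfl
  have hint : ∀ x, Integrable (fun y => Gam N (x - y)) p := by
    intro x
    set ρ : ℝ := ‖x‖ + |R| + 1 with hρ
    have hρ0 : 0 < ρ := by positivity
    have hb : Integrable (fun y => |gg N 1| + (Ph N (β / 2) ρ ‖x - y‖ + Ph N (β / 2) ρ 1)) p :=
      (integrable_const _).add ((hPi x ρ hρ0).add (integrable_const _))
    refine hb.mono' (Gam_meas.comp (by fun_prop)).aestronglyMeasurable ?_
    filter_upwards [hR, hne x] with y hy hyx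
    have ht : 0 < ‖x - y‖ := norm_pos_iff.2 (sub_ne_zero.2 hyx.symm)
    have h2 : ‖x - y‖ ≤ ‖x‖ + |R| :=
      (norm_sub_le x y).trans (by linarith [le_abs_self R])
    have h3 := gg_le hN hγ hγ1 hρ0.le ht one_pos (by
      rw [abs_le]
      have := abs_nonneg R
      have := norm_nonneg x
      constructor <;> linarith)
    rw [hG, Real.norm_eq_abs]
    have h4 : |gg N ‖x - y‖| ≤ |gg N 1| + |gg N ‖x - y‖ - gg N 1| := by
      have := abs_add_le (gg N 1) (gg N ‖x - y‖ - gg N 1)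
      rwa [add_sub_cancel] at this
    linarith
  refine ⟨hint, fun x z => ?_⟩
  rcases eq_or_ne x z with rfl | hxz
  · rw [sub_self, abs_zero, dist_self, Real.zero_rpow h0.ne', mul_zero]
  have hρ : 0 < dist x z := dist_pos.2 hxz
  rw [← integral_sub (hint x) (hint z)]
  have h3 : |∫ y, (Gam N (x - y) - Gam N (z - y)) ∂p| ≤
      ∫ y, ‖Gam N (x - y) - Gam N (z - y)‖ ∂p :=
    norm_integral_le_integral_norm (μ := p) (fun y => Gam N (x - y) - Gam N (z - y))
  refine h3.trans ?_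
  have h2 : ∫ y, ‖Gam N (x - y) - Gam N (z - y)‖ ∂p ≤
      ∫ y, (Ph N (β / 2) (dist x z) ‖x - y‖ + Ph N (β / 2) (dist x z) ‖z - y‖) ∂p := by
    refine integral_mono_ae ((hint x).sub (hint z)).norm ((hPi x _ hρ).add (hPi z _ hρ)) ?_
    filter_upwards [hne x, hne z] with y hyx hyz
    rw [hG, hG, Real.norm_eq_abs]
    refine gg_le hN hγ hγ1 hρ.le (norm_pos_iff.2 (sub_ne_zero.2 hyx.symm))
      (norm_pos_iff.2 (sub_ne_zero.2 hyz.symm)) ?_
    refine (abs_norm_sub_norm_le _ _).trans ?_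
    rw [sub_sub_sub_cancel_right, ← dist_eq_norm, dist_comm]
  refine h2.trans ?_
  rw [integral_add (hPi x _ hρ) (hPi z _ hρ), add_mul]
  exact add_le_add (hPint x _ hρ) (hPint z _ hρ)

end Pool.Agent.H85.HZ
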