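import Pool.Agent.H85.HZ.Meas

/-!
# The set of infinite upper density is a null set
-/

set_option autoImplicit false

namespace Pool.Agent.H85.HZ

open MeasureTheory Filter Topology Metric Set
open scoped ENNReal NNReal

section

variable {X : Type*} [MetricSpace X] [MeasurableSpace X] [BorelSpace X]

/-- The set of the points of infinite upper density. -/
def BadS (p : Measure X) (h : ℝ → ℝ) : Set X :=
  {x | ¬ ∃ C η : ℝ, 0 < η ∧ ∀ r ∈ Ioo 0 η, p.real (closedBall x r) ≤ C * h r}

omit [MeasurableSpace X] [BorelSpace X] in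
lemma edc (x : X) {r : ℝ} : ediam (closedBall x r) ≤ ENNReal.ofReal (2 * r) :=
  ediam_le_of_forall_dist_le fun y hy z hz => by
    rw [mem_closedBall] at hy hz
    linarith [dist_triangle_right y z x]

lemma IsGauge.dbl_iter {D : ℝ} {h : ℝ → ℝ} (H : IsGauge D h) (k : ℕ) {r : ℝ} (hr : 0 < r) :
    h (2 ^ k * r) ≤ D ^ k * h r := by
  have hD : 0 ≤ D := by linarith [H.one_le]
  induction k with
  | zero => simp
  | succ k ih =>
    calc h (2 ^ (k + 1) * r) = h (2 * (2 ^ k * r)) := by ring_nf
      _ ≤ D * h (2 ^ k * r) := H.dbl _ (by positivity)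
      _ ≤ D * (D ^ k * h r) := by gcongr
      _ = _ := by ring

lemma badS_null (p : Measure X) [IsFiniteMeasure p] {h : ℝ → ℝ} {D : ℝ} (hh : IsGauge D h) :
    HG h (BadS p h) = 0 := by
  have hD : 0 < D := by linarith [hh.one_le]
  have hr : ∀ (n : ℕ) (x : X), x ∈ BadS p h → ∃ r : ℝ, 0 < r ∧ r < 1 / (n + 1) ∧
      (n + 1) * h r < p.real (closedBall x r) := by
    intro n x hx
    by_contra hcon
    push Not at hcon
    exact hx ⟨n + 1, 1 / (n + 1), by positivity, fun r hr => hcon r hr.1 hr.2⟩
  choose! r hr0 hr1 hr2 using hr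
  have hu := fun n : ℕ => Vitali.exists_disjoint_subfamily_covering_enlargement_closedBall
    (BadS p h) (fun x => x) (r n) (1 / (n + 1)) (fun x hx => (hr1 n x hx).le) 4 (by norm_num)
  choose u hu1 hu2 hu3 using hu
  have hdis : ∀ n, Pairwise (Function.onFun Disjoint
      (fun x : u n => closedBall (x : X) (r n x))) := by
    intro n x y hxy
    exact hu2 n x.2 y.2 (fun e => hxy (Subtype.ext e))
  have hcount : ∀ n, Countable (u n) := by
    intro n
    have h1 := Measure.countable_meas_pos_of_disjoint_iUnion (μ := p)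
      (As := fun x : u n => closedBall (x : X) (r n x))
      (fun x => measurableSet_closedBall) (hdis n)
    have h2 : {i : u n | 0 < p (closedBall (i : X) (r n i))} = univ := by
      refine eq_univ_of_forall fun x => ?_
      have hx := hu1 n x.2
      have h3 := hr2 n x hx
      have h4 : 0 < h (r n x) := hh.pos _ (hr0 n x hx)
      have h5 : 0 < p.real (closedBall (x : X) (r n x)) := lt_of_le_of_lt (by positivity) h3
      rw [mem_ofPred_eq, pos_iff_ne_zero]
      intro h6
      rw [measureReal_def, h6] at h5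
      simp at h5
    rw [h2] at h1
    exact countable_univ_iff.1 h1
  have key := Measure.mkMetric_le_liminf_tsum (X := X) (ι := fun n => u n) (BadS p h) (l := atTop)
    (fun n : ℕ => ENNReal.ofReal (8 * (1 / (n + 1)))) (by
      have : Tendsto (fun n : ℕ => 8 * (1 / ((n : ℝ) + 1))) atTop (𝓝 (8 * 0)) :=
        tendsto_one_div_add_atTop_nhds_zero_nat.const_mul 8
      rw [mul_zero] at this
      have h2 := (ENNReal.continuous_ofReal.tendsto 0).comp this
      rw [ENNReal.ofReal_zero] at h2
      exact h2)
    (fun n x => closedBall (x : X) (4 * r n x))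
    (Eventually.of_forall fun n x => by
      have hx := hu1 n x.2
      have := hr0 n x hx
      have := hr1 n x hx
      refine (edc _).trans ?_
      exact ENNReal.ofReal_le_ofReal (by linarith))
    (Eventually.of_forall fun n x hx => by
      obtain ⟨b, hb, hb'⟩ := hu3 n x hx
      exact mem_iUnion.2 ⟨⟨b, hb⟩, hb' (mem_closedBall_self (hr0 n x hx).le)⟩)
    (fun t => ENNReal.ofReal (h t.toReal))
  refine le_antisymm (key.trans ?_) bot_le
  have hbound : ∀ n : ℕ, ∑' i : u n, ENNReal.ofReal (h (ediam (closedBall (i : X)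
      (4 * r n i))).toReal) ≤ ENNReal.ofReal (D ^ 3 / (n + 1)) * p univ := by
    intro n
    calc ∑' i : u n, ENNReal.ofReal (h (ediam (closedBall (i : X) (4 * r n i))).toReal)
        ≤ ∑' i : u n, ENNReal.ofReal (D ^ 3 / (n + 1)) * p (closedBall (i : X) (r n i)) := by
          refine ENNReal.tsum_le_tsum fun x => ?_
          have hx := hu1 n x.2
          have h0 := hr0 n x hx
          have h3 := hr2 n x hx
          rw [← ofReal_measureReal, ← ENNReal.ofReal_mul (by positivity)]
          refine ENNReal.ofReal_le_ofReal ?_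
          have h4 : (ediam (closedBall (x : X) (4 * r n x))).toReal ≤ 2 ^ 3 * r n x := by
            refine ENNReal.toReal_le_of_le_ofReal (by positivity) ?_
            refine (edc _).trans ?_
            exact ENNReal.ofReal_le_ofReal (by linarith)
          refine (hh.mono _ _ ENNReal.toReal_nonneg h4).trans ((hh.dbl_iter 3 h0).trans ?_)
          rw [div_mul_eq_mul_div, le_div_iff₀ (by positivity)]
          calc D ^ 3 * h (r n x) * (n + 1) = D ^ 3 * ((n + 1) * h (r n x)) := by ring
            _ ≤ _ := by gcongr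
      _ = ENNReal.ofReal (D ^ 3 / (n + 1)) * ∑' i : u n, p (closedBall (i : X) (r n i)) :=
          ENNReal.tsum_mul_left
      _ ≤ _ := by
          have := hcount n
          gcongr
          rw [← measure_iUnion (hdis n) fun x => measurableSet_closedBall]
          exact measure_mono (subset_univ _)
  have hlim : Tendsto (fun n : ℕ => ENNReal.ofReal (D ^ 3 / (n + 1)) * p univ) atTop (𝓝 0) := by
    have h1 : Tendsto (fun n : ℕ => D ^ 3 * (1 / ((n : ℝ) + 1))) atTop (𝓝 (D ^ 3 * 0)) :=
      tendsto_one_div_add_atTop_nhds_zero_nat.const_mul _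
    rw [mul_zero] at h1
    have h2 : Tendsto (fun n : ℕ => ENNReal.ofReal (D ^ 3 / (n + 1))) atTop (𝓝 0) := by
      have := (ENNReal.continuous_ofReal.tendsto 0).comp h1
      rw [ENNReal.ofReal_zero] at this
      refine this.congr fun n => ?_
      simp only [Function.comp]
      congr 1
      ring
    have := ENNReal.Tendsto.mul_const h2 (Or.inr (measure_ne_top p univ))
    rwa [zero_mul] at this
  calc liminf (fun n => ∑' i : u n, ENNReal.ofReal (h (ediam (closedBall (i : X)
      (4 * r n i))).toReal)) atTop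
      ≤ liminf (fun n : ℕ => ENNReal.ofReal (D ^ 3 / (n + 1)) * p univ) atTop :=
        liminf_le_liminf (Eventually.of_forall hbound)
    _ = 0 := hlim.liminf_eq

lemma good_ae (p : Measure X) [IsFiniteMeasure p] {h : ℝ → ℝ} {D : ℝ} (hh : IsGauge D h)
    (H : ∀ A, MeasurableSet A → HG h A = 0 → p A = 0) :
    ∀ᵐ x ∂p, ∃ C η : ℝ, 0 < η ∧ ∀ r ∈ Ioo 0 η, p.real (closedBall x r) ≤ C * h r := by
  obtain ⟨A, hA1, hA2, hA3⟩ := exists_measurable_superset_of_null (badS_null p hh)
  exact measure_mono_null hA1 (H A hA2 hA3)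

end

end Pool.Agent.H85.HZ
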