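import Pool.Agent.H85.HZ.Core
import Pool.Agent.H85.HZ.Vit
import Pool.Agent.H85.HZ.Carl

/-!
# Strong limits of measures with Hölder continuous potentials
-/

set_option autoImplicit false

namespace Pool.Agent.H85.HZ

open MeasureTheory Filter Topology Metric Set Pool.Agent.H.MP_19b229_an
open scoped ENNReal NNReal

section Signed

variable {X : Type*} [MeasurableSpace X]

lemma tv_null_of_forall (μ : SignedMeasure X) {A : Set X} (hA : MeasurableSet A)
    (h : ∀ B, MeasurableSet B → B ⊆ A → μ B = 0) : μ.totalVariation A = 0 := by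
  obtain ⟨i, hi₁, hi₂, hi₃, h1, h2⟩ := μ.toJordanDecomposition_spec
  unfold SignedMeasure.totalVariation
  rw [Measure.add_apply, h1, h2, SignedMeasure.toMeasureOfZeroLE_apply _ _ hi₁ hA,
    SignedMeasure.toMeasureOfLEZero_apply _ _ hi₁.compl hA, add_eq_zero]
  constructor
  · rw [ENNReal.coe_eq_zero]
    apply NNReal.coe_injective
    exact h _ (hi₁.inter hA) inter_subset_right
  · rw [ENNReal.coe_eq_zero]
    apply NNReal.coe_injective
    show -μ (iᶜ ∩ A) = 0
    rw [h _ (hi₁.compl.inter hA) inter_subset_right, neg_zero]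

lemma abs_apply_le (ν : SignedMeasure X) (B : Set X) :
    |ν B| ≤ (ν.totalVariation univ).toReal := by
  by_cases hB : MeasurableSet B
  · have h1 : ν B = ν.toJordanDecomposition.posPart.real B -
        ν.toJordanDecomposition.negPart.real B := by
      conv_lhs => rw [← ν.toSignedMeasure_toJordanDecomposition]
      unfold JordanDecomposition.toSignedMeasure
      rw [VectorMeasure.sub_apply, Measure.toSignedMeasure_apply_measurable hB,
        Measure.toSignedMeasure_apply_measurable hB]
    have h2 : (ν.totalVariation univ).toReal = ν.toJordanDecomposition.posPart.real univ +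
        ν.toJordanDecomposition.negPart.real univ := by
      unfold SignedMeasure.totalVariation
      rw [Measure.add_apply, ENNReal.toReal_add (measure_ne_top _ _) (measure_ne_top _ _)]
      rfl
    rw [h1, h2]
    have h3 : ν.toJordanDecomposition.posPart.real B ≤
        ν.toJordanDecomposition.posPart.real univ := measureReal_mono (subset_univ _)
    have h4 : ν.toJordanDecomposition.negPart.real B ≤
        ν.toJordanDecomposition.negPart.real univ := measureReal_mono (subset_univ _)
    have h5 : 0 ≤ ν.toJordanDecomposition.posPart.real B := measureReal_nonneg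
    have h6 : 0 ≤ ν.toJordanDecomposition.negPart.real B := measureReal_nonneg
    rw [abs_le]
    constructor <;> linarith
  · rw [VectorMeasure.not_measurable _ hB, abs_zero]
    exact ENNReal.toReal_nonneg

lemma apply_eq_zero_of_tv {ν : SignedMeasure X} {B : Set X}
    (h : ν.totalVariation B = 0) : ν B = 0 :=
  SignedMeasure.null_of_totalVariation_zero ν h

lemma tv_null_of_tendsto {μ : SignedMeasure X} {m : ℕ → SignedMeasure X} {A : Set X}
    (hA : MeasurableSet A) (h : ∀ n, (m n).totalVariation A = 0)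
    (hl : Tendsto (fun n => (m n - μ).totalVariation univ) atTop (𝓝 0)) :
    μ.totalVariation A = 0 := by
  refine tv_null_of_forall μ hA fun B hB hBA => ?_
  have h1 : ∀ n, |μ B| ≤ ((m n - μ).totalVariation univ).toReal := fun n => by
    have h2 := abs_apply_le (m n - μ) B
    rw [VectorMeasure.sub_apply, apply_eq_zero_of_tv (measure_mono_null hBA (h n)), zero_sub,
      abs_neg] at h2
    exact h2
  have h3 := (ENNReal.tendsto_toReal ENNReal.zero_ne_top).comp hl
  rw [ENNReal.toReal_zero] at h3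
  have h4 : |μ B| ≤ 0 := ge_of_tendsto h3 (Eventually.of_forall h1)
  exact abs_nonpos_iff.1 h4

end Signed

variable {N : ℕ}

lemma gau_rpow (hN : 2 ≤ N) {β r : ℝ} (hr : 0 < r) :
    gau N (fun r : ℝ => r ^ β) r = r ^ (N - 2 + β : ℝ) := by
  unfold gau
  rw [← Real.rpow_natCast, ← Real.rpow_add hr]
  push_cast [Nat.cast_sub hN]
  rfl

/-- Growth of the restriction. -/
lemma AS_growth (hN : 2 ≤ N) {β : ℝ} (hβ : 0 < β) (p : Measure (E N)) [IsFiniteMeasure p]
    {C : ℝ} (hC : 0 ≤ C) (k : ℕ) : ∃ C', 0 ≤ C' ∧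
      Growth (p.restrict (AS p (gau N fun r : ℝ => r ^ β) C k)) C' (N - 2 + β) := by
  have hN2 : (2 : ℝ) ≤ N := by exact_mod_cast hN
  have hs : (0 : ℝ) < N - 2 + β := by linarith
  set s : ℝ := N - 2 + β with hsdef
  refine ⟨C * 2 ^ s + p.real univ * (2 * (k + 1)) ^ s, by positivity, fun x r hr => ?_⟩
  set A := AS p (gau N fun r : ℝ => r ^ β) C k with hA
  have e0 : (p.restrict A).real (closedBall x r) = p.real (closedBall x r ∩ A) := by
    rw [measureReal_def, measureReal_def, Measure.restrict_apply measurableSet_closedBall]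
  rw [e0, add_mul]
  have n1 : 0 ≤ C * 2 ^ s * r ^ s := by positivity
  have n2 : 0 ≤ p.real univ * (2 * (k + 1)) ^ s * r ^ s := by positivity
  rcases le_or_gt (2 * r) (1 / (k + 1)) with h | h
  · rcases (closedBall x r ∩ A).eq_empty_or_nonempty with e | ⟨z, hz, hzA⟩
    · rw [e, measureReal_empty]
      positivity
    · have h1 : closedBall x r ⊆ closedBall z (2 * r) := fun y hy => by
        rw [mem_closedBall] at hy hz ⊢
        linarith [dist_triangle_right y z x]
      have h2 := hzA (2 * r) ⟨by positivity, h⟩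
      rw [gau_rpow hN (by positivity), ← hsdef, Real.mul_rpow (by norm_num) hr.le] at h2
      have h3 : p.real (closedBall x r ∩ A) ≤ p.real (closedBall z (2 * r)) :=
        measureReal_mono (inter_subset_left.trans h1)
      linarith
  · have h1 : p.real (closedBall x r ∩ A) ≤ p.real univ := measureReal_mono (subset_univ _)
    have h2 : 1 ≤ (2 * (k + 1)) ^ s * r ^ s := by
      rw [← Real.mul_rpow (by positivity) hr.le]
      refine Real.one_le_rpow ?_ hs.le
      rw [div_lt_iff₀ (by positivity)] at h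
      linarith
    have h3 : p.real univ ≤ p.real univ * ((2 * (k + 1)) ^ s * r ^ s) :=
      le_mul_of_one_le_right measureReal_nonneg h2
    rw [mul_assoc (p.real univ)]
    linarith

lemma frost_growth (hN : 2 ≤ N) {β : ℝ} (hβ : 0 < β) (p : Measure (E N)) [IsFiniteMeasure p]
    (H : ∀ᵐ x ∂p, ∃ C η : ℝ, 0 < η ∧ ∀ r ∈ Ioo 0 η, p.real (closedBall x r) ≤
      C * gau N (fun r : ℝ => r ^ β) r) :
    ∃ T : ℕ → Set (E N), (∀ n, MeasurableSet (T n)) ∧
      (∀ n, ∃ C, 0 ≤ C ∧ Growth (p.restrict (T n)) C (N - 2 + β)) ∧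
      Tendsto (fun n => p (T n)ᶜ) atTop (𝓝 0) := by
  have hh := gau_isGauge hN (isGauge_rpow hβ)
  set A : ℕ → Set (E N) := fun n => AS p (gau N fun r : ℝ => r ^ β) n n with hA
  have hAm : Monotone A := fun n m hnm => AS_mono p hh (by exact_mod_cast hnm) hnm
  have h1 : ∀ᵐ x ∂p, x ∈ ⋃ n, A n := H.mono fun x ⟨C, η, h0, hx⟩ => by
    obtain ⟨n, hn⟩ := exists_nat_one_div_lt h0
    obtain ⟨m, hm⟩ := exists_nat_ge C
    refine mem_iUnion.2 ⟨max n m, fun r hr => ?_⟩
    have e1 : (1 : ℝ) / ((max n m : ℕ) + 1) ≤ 1 / (n + 1) := by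
      have : (n : ℝ) ≤ (max n m : ℕ) := by exact_mod_cast le_max_left n m
      gcongr
    refine (hx r ⟨hr.1, hr.2.trans_lt (e1.trans_lt hn)⟩).trans ?_
    have := hh.nonneg hr.1.le
    have e2 : (m : ℝ) ≤ (max n m : ℕ) := by exact_mod_cast le_max_right n m
    gcongr
    exact hm.trans e2
  refine ⟨fun n => toMeasurable p (A n), fun n => measurableSet_toMeasurable _ _, fun n => ?_, ?_⟩
  · rw [Measure.restrict_toMeasurable (measure_ne_top p _)]
    exact AS_growth hN hβ p (by positivity) n
  · have h2 : Tendsto (fun n => p (A n)) atTop (𝓝 (p (⋃ n, A n))) :=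
      tendsto_measure_iUnion_atTop hAm
    have h3 : p (⋃ n, A n) = p univ := le_antisymm (measure_mono (subset_univ _))
      (measure_mono_ae (h1.mono fun x hx _ => hx))
    rw [h3] at h2
    have h4 : Tendsto (fun n => p univ - p (A n)) atTop (𝓝 (p univ - p univ)) :=
      ENNReal.Tendsto.sub tendsto_const_nhds h2 (Or.inl (measure_ne_top p _))
    rw [tsub_self] at h4
    refine h4.congr fun n => ?_
    rw [measure_compl (measurableSet_toMeasurable _ _) (measure_ne_top p _),
      measure_toMeasurable]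

/-- The potential of `ν` is Hölder continuous on the whole space. -/
def HolderPot (c β : ℝ) (ν : SignedMeasure (E N)) : Prop :=
  ∃ K : ℝ, 0 ≤ K ∧ ∀ x y, |pot c ν x - pot c ν y| ≤ K * dist x y ^ β

lemma holderPot_jr (hN : 2 ≤ N) {β : ℝ} (h0 : 0 < β) (h1 : β < 1) {Ω : Set (E N)}
    (hb : Bornology.IsBounded Ω) (c : ℝ) (μ : SignedMeasure (E N))
    (hμ : μ.totalVariation Ωᶜ = 0) {T T' : Set (E N)} {C C' : ℝ} (hC : 0 ≤ C) (hC' : 0 ≤ C')
    (hT : Growth (μ.toJordanDecomposition.posPart.restrict T) C (N - 2 + β))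
    (hT' : Growth (μ.toJordanDecomposition.negPart.restrict T') C' (N - 2 + β)) :
    HolderPot c β (jr μ T T').toSignedMeasure := by
  obtain ⟨R, hR⟩ := hb.exists_norm_le
  rw [SignedMeasure.totalVariation, Measure.add_apply, add_eq_zero] at hμ
  have hp : ∀ᵐ y ∂μ.toJordanDecomposition.posPart, ‖y‖ ≤ R :=
    (show ∀ᵐ y ∂μ.toJordanDecomposition.posPart, y ∈ Ω from hμ.1).mono hR
  have hq : ∀ᵐ y ∂μ.toJordanDecomposition.negPart, ‖y‖ ≤ R :=
    (show ∀ᵐ y ∂μ.toJordanDecomposition.negPart, y ∈ Ω from hμ.2).mono hR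
  obtain ⟨M, hM0, hM⟩ := carl hN h0 h1 hC
  obtain ⟨M', hM0', hM'⟩ := carl hN h0 h1 hC'
  obtain ⟨-, h2⟩ := hM _ R (ae_restrict_of_ae hp) hT
  obtain ⟨-, h3⟩ := hM' _ R (ae_restrict_of_ae hq) hT'
  have hpot : ∀ x, pot c (jr μ T T').toSignedMeasure x =
      c * ∫ y, Gam N (x - y) ∂(μ.toJordanDecomposition.posPart.restrict T) -
      c * ∫ y, Gam N (x - y) ∂(μ.toJordanDecomposition.negPart.restrict T') := fun x => by
    unfold pot
    rw [SignedMeasure.toJordanDecomposition_eq rfl, integral_const_mul, integral_const_mul]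
    rfl
  refine ⟨|c| * (M + M'), by positivity, fun x y => ?_⟩
  rw [hpot, hpot]
  have e : ∀ a b a' b' : ℝ, c * a - c * b - (c * a' - c * b') = c * ((a - a') - (b - b')) := by
    intro a b a' b'
    ring
  rw [e, abs_mul, mul_assoc]
  gcongr
  refine (abs_sub _ _).trans ?_
  rw [add_mul]
  exact add_le_add (h2 x y) (h3 x y)

end Pool.Agent.H85.HZ
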