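import Pool.Agent.H85.HZ.Pot

/-!
# Approximation of measures whose potentials have a modulus of continuity
-/

set_option autoImplicit false

namespace Pool.Agent.H85.HZ

open MeasureTheory Filter Topology Metric Set Pool.Agent.H.MP_19b229_an
open scoped ENNReal NNReal

section Signed

variable {X : Type*} [MeasurableSpace X]

/-- The Jordan decomposition given by restrictions of the two parts. -/
noncomputable def jr (μ : SignedMeasure X) (T T' : Set X) : JordanDecomposition X where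
  posPart := μ.toJordanDecomposition.posPart.restrict T
  negPart := μ.toJordanDecomposition.negPart.restrict T'
  mutuallySingular := (μ.toJordanDecomposition.mutuallySingular.mono
    Measure.restrict_le_self Measure.restrict_le_self)

lemma jr_tv (μ : SignedMeasure X) (T T' : Set X) : (jr μ T T').toSignedMeasure.totalVariation =
    μ.toJordanDecomposition.posPart.restrict T + μ.toJordanDecomposition.negPart.restrict T' := by
  unfold SignedMeasure.totalVariation
  rw [SignedMeasure.toJordanDecomposition_eq rfl]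
  rfl

lemma jr_sub (μ : SignedMeasure X) {T T' : Set X} (hT : MeasurableSet T)
    (hT' : MeasurableSet T') :
    μ - (jr μ T T').toSignedMeasure = (jr μ Tᶜ T'ᶜ).toSignedMeasure := by
  have h1 : μ = μ.toJordanDecomposition.toSignedMeasure :=
    μ.toSignedMeasure_toJordanDecomposition.symm
  have h2 : ∀ (p : Measure X) [IsFiniteMeasure p] {T : Set X}, MeasurableSet T →
      p.toSignedMeasure = (p.restrict T).toSignedMeasure + (p.restrict Tᶜ).toSignedMeasure := by
    intro p _ T hT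
    rw [← Measure.toSignedMeasure_add]
    congr 1
    exact (Measure.restrict_add_restrict_compl hT).symm
  rw [sub_eq_iff_eq_add]
  refine h1.trans ?_
  unfold JordanDecomposition.toSignedMeasure
  rw [h2 μ.toJordanDecomposition.posPart hT, h2 μ.toJordanDecomposition.negPart hT']
  simp only [jr]
  abel

lemma jr_sub_tv (μ : SignedMeasure X) {T T' : Set X} (hT : MeasurableSet T)
    (hT' : MeasurableSet T') : ((jr μ T T').toSignedMeasure - μ).totalVariation univ =
      μ.toJordanDecomposition.posPart Tᶜ + μ.toJordanDecomposition.negPart T'ᶜ := by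
  rw [← neg_sub, SignedMeasure.totalVariation_neg, jr_sub μ hT hT', jr_tv, Measure.add_apply,
    Measure.restrict_apply_univ, Measure.restrict_apply_univ]

end Signed

variable {N : ℕ}

lemma ModAt.mono {c : ℝ} {μ : SignedMeasure (E N)} {ω : ℝ → ℝ} {D K K' : ℝ} {x : E N}
    (hω : IsGauge D ω) (hx : ModAt c μ ω K x) (hK : K ≤ K') : ModAt c μ ω K' x := by
  obtain ⟨a, δ, hδ, h⟩ := hx
  refine ⟨a, δ, hδ, h.mono fun y hy => hy.trans ?_⟩
  have := hω.nonneg (dist_nonneg (x := y) (y := x))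
  gcongr

/-- almost everywhere bound for the balls -/
lemma ball_bound (hN : 2 ≤ N) {κ : ℝ} (hκ0 : κ ≠ 0)
    (hκ : ∀ w, ∫ z, Gam N (z - w) * DD N z = κ * ph N w) {Ω : Set (E N)}
    (hb : Bornology.IsBounded Ω) {c : ℝ} (hc : c ≠ 0) (μ : SignedMeasure (E N))
    (hμ : μ.totalVariation Ωᶜ = 0) {D : ℝ} {ω : ℝ → ℝ} (hω : IsGauge D ω) :
    (∀ᵐ x ∂μ.toJordanDecomposition.posPart, ∀ K, 0 ≤ K → ModAt c μ ω K x → ∀ ε > 0, ∃ η > 0,
      ∀ r ∈ Ioo 0 η, μ.toJordanDecomposition.posPart.real (closedBall x r) ≤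
        (2 * (Lc N D c κ * K) + ε) * gau N ω r) ∧
    (∀ᵐ x ∂μ.toJordanDecomposition.negPart, ∀ K, 0 ≤ K → ModAt c μ ω K x → ∀ ε > 0, ∃ η > 0,
      ∀ r ∈ Ioo 0 η, μ.toJordanDecomposition.negPart.real (closedBall x r) ≤
        (2 * (Lc N D c κ * K) + ε) * gau N ω r) := by
  have hm := μ.toJordanDecomposition.mutuallySingular
  have hg := gau_isGauge hN hω
  have hD : 0 ≤ D := by linarith [hω.one_le]
  have hL : 0 ≤ Lc N D c κ := by
    have : 0 ≤ ∫ z, ‖DD N z‖ := integral_nonneg fun _ => norm_nonneg _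
    unfold Lc
    positivity
  constructor
  · filter_upwards [densAt _ _ hm.symm hg] with x hx K hK hmod ε hε
    obtain ⟨δ, hδ, h⟩ := keyAt hN hκ0 hκ hb hc μ hμ hω hK hmod
    exact hx _ δ (by positivity) hδ (fun r hr => (le_abs_self _).trans (h r hr)) ε hε
  · filter_upwards [densAt _ _ hm hg] with x hx K hK hmod ε hε
    obtain ⟨δ, hδ, h⟩ := keyAt hN hκ0 hκ hb hc μ hμ hω hK hmod
    exact hx _ δ (by positivity) hδ
      (fun r hr => (le_abs_self _).trans ((abs_sub_comm _ _).trans_le (h r hr))) ε hε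

/-- Pointwise modulus of continuity. -/
theorem core_seq (hN : 2 ≤ N) {Ω : Set (E N)} (hb : Bornology.IsBounded Ω) {c : ℝ} (hc : c ≠ 0)
    (μ : SignedMeasure (E N)) (hμ : μ.totalVariation Ωᶜ = 0) {D : ℝ} {ω : ℝ → ℝ}
    (hω : IsGauge D ω) (H : ∀ᵐ x ∂μ.totalVariation, ∃ K, ModAt c μ ω K x) (b : ℝ≥0)
    (hb0 : 0 < b) : ∃ m : ℕ → SignedMeasure (E N),
      (∀ n, (m n).totalVariation ≤ μ.totalVariation) ∧
      (∀ n : ℕ, (m n).totalVariation ≤ (n : ℝ≥0∞) • (b : ℝ≥0∞) • HG (gau N ω)) ∧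
      Tendsto (fun n => (m n - μ).totalVariation univ) atTop (𝓝 0) := by
  obtain ⟨κ, hκ0, hκ⟩ := fund hN
  have hg := gau_isGauge hN hω
  obtain ⟨h1, h2⟩ := ball_bound hN hκ0 hκ hb hc μ hμ hω
  have H' : ∀ᵐ x ∂μ.totalVariation, ∃ K, 0 ≤ K ∧ ModAt c μ ω K x := H.mono fun x ⟨K, hK⟩ =>
    ⟨max K 0, le_max_right _ _, hK.mono hω (le_max_left _ _)⟩
  unfold SignedMeasure.totalVariation at H'
  rw [ae_add_measure_iff] at H'
  obtain ⟨H1, H2⟩ := H'
  have hb2 : 0 < b / 2 := by positivity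
  obtain ⟨T, hT, hT1, hT2⟩ := frost_seq μ.toJordanDecomposition.posPart hg (by
    filter_upwards [h1, H1] with x hx ⟨K, hK0, hK⟩
    obtain ⟨η, h0, h⟩ := hx K hK0 hK 1 one_pos
    exact ⟨_, η, h0, h⟩) (b / 2) hb2
  obtain ⟨T', hT', hT1', hT2'⟩ := frost_seq μ.toJordanDecomposition.negPart hg (by
    filter_upwards [h2, H2] with x hx ⟨K, hK0, hK⟩
    obtain ⟨η, h0, h⟩ := hx K hK0 hK 1 one_pos
    exact ⟨_, η, h0, h⟩) (b / 2) hb2
  refine ⟨fun n => (jr μ (T n) (T' n)).toSignedMeasure, fun n => ?_, fun n => ?_, ?_⟩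
  · rw [jr_tv]
    exact add_le_add Measure.restrict_le_self Measure.restrict_le_self
  · rw [jr_tv]
    refine (add_le_add (hT1 n) (hT1' n)).trans_eq ?_
    rw [← smul_add, ← add_smul]
    congr 2
    rw [← ENNReal.coe_add]
    congr 1
    exact add_halves b
  · simp only [jr_sub_tv μ (hT _) (hT' _)]
    simpa using hT2.add hT2'

/-- Uniform modulus of continuity. -/
theorem core_unif (hN : 2 ≤ N) (D c : ℝ) (hc : c ≠ 0) : ∃ L : ℝ≥0, ∀ (Ω : Set (E N))
    (_ : Bornology.IsBounded Ω) (μ : SignedMeasure (E N)) (_ : μ.totalVariation Ωᶜ = 0)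
    (ω : ℝ → ℝ) (_ : IsGauge D ω) (K : ℝ≥0) (_ : 0 < K)
    (_ : ∀ᵐ x ∂μ.totalVariation, ModAt c μ ω K x),
      μ.totalVariation ≤ (L * K : ℝ≥0∞) • HG (gau N ω) := by
  obtain ⟨κ, hκ0, hκ⟩ := fund hN
  refine ⟨(2 * (2 * (Lc N D c κ + 1))).toNNReal, fun Ω hb μ hμ ω hω K hK H => ?_⟩
  have hD : 0 ≤ D := by linarith [hω.one_le]
  have hL : 0 ≤ Lc N D c κ := by
    have : 0 ≤ ∫ z, ‖DD N z‖ := integral_nonneg fun _ => norm_nonneg _
    unfold Lc
    positivity
  have hg := gau_isGauge hN hω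
  obtain ⟨h1, h2⟩ := ball_bound hN hκ0 hκ hb hc μ hμ hω
  unfold SignedMeasure.totalVariation at H ⊢
  rw [ae_add_measure_iff] at H
  obtain ⟨H1, H2⟩ := H
  have hK' : (0 : ℝ) < K := hK
  have hC : 0 < 2 * ((Lc N D c κ + 1) * K) := by positivity
  have key : ∀ (p : Measure (E N)) [IsFiniteMeasure p], (∀ᵐ x ∂p, ∀ ε > 0, ∃ η > 0,
      ∀ r ∈ Ioo 0 η, p.real (closedBall x r) ≤ (2 * (Lc N D c κ * K) + ε) * gau N ω r) →
      p ≤ ENNReal.ofReal (2 * ((Lc N D c κ + 1) * K)) • HG (gau N ω) := by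
    intro p _ hp
    refine frost_unif p hg hC (hp.mono fun x hx ε hε => ?_)
    obtain ⟨η, h0, h⟩ := hx ε hε
    refine ⟨η, h0, fun r hr => (h r hr).trans ?_⟩
    have := hg.nonneg hr.1.le
    gcongr
    linarith
  have k1 := key _ (by filter_upwards [h1, H1] with x hx hK1 using hx K K.2 hK1)
  have k2 := key _ (by filter_upwards [h2, H2] with x hx hK1 using hx K K.2 hK1)
  refine (add_le_add k1 k2).trans_eq ?_
  rw [← add_smul]
  congr 1
  rw [← ENNReal.ofReal_add hC.le hC.le, ← ENNReal.ofReal_coe_nnreal (p := K),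
    ← ENNReal.ofReal_coe_nnreal (p := (2 * (2 * (Lc N D c κ + 1))).toNNReal),
    ← ENNReal.ofReal_mul (by positivity), Real.coe_toNNReal _ (by positivity)]
  congr 1
  ring

/-! ## Powers -/

lemma isGauge_rpow {β : ℝ} (hβ : 0 < β) : IsGauge (2 ^ β) (fun r : ℝ => r ^ β) where
  zero := Real.zero_rpow hβ.ne'
  pos r hr := Real.rpow_pos_of_pos hr _
  mono r s hr hrs := Real.rpow_le_rpow hr hrs hβ.le
  dbl r hr := (Real.mul_rpow (by norm_num) hr.le).le
  lim := by
    have := (Real.continuousAt_rpow_const 0 β (Or.inr hβ.le)).tendsto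
    rw [Real.zero_rpow hβ.ne'] at this
    exact tendsto_nhdsWithin_of_tendsto_nhds this

lemma HG_rpow (hN : 2 ≤ N) {β : ℝ} (hβ : 0 < β) :
    (HG (gau N fun r : ℝ => r ^ β) : Measure (E N)) = μH[N - 2 + β] := by
  have h2 : (2 : ℝ) ≤ N := by exact_mod_cast hN
  have hs : (0 : ℝ) < N - 2 + β := by linarith
  have key : ∀ᶠ t : ℝ≥0∞ in 𝓝 0, ENNReal.ofReal (gau N (fun r : ℝ => r ^ β) t.toReal) =
      t ^ (N - 2 + β : ℝ) := by
    filter_upwards [Iio_mem_nhds (show (0 : ℝ≥0∞) < ⊤ by simp)] with t ht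
    have ht' : t ≠ ⊤ := ne_of_lt ht
    conv_rhs => rw [← ENNReal.ofReal_toReal ht']
    rw [ENNReal.ofReal_rpow_of_nonneg ENNReal.toReal_nonneg hs.le]
    congr 1
    unfold gau
    rcases ENNReal.toReal_nonneg (a := t) |>.eq_or_lt with e | e
    · rw [← e, Real.zero_rpow hs.ne']
      show 0 ^ (N - 2) * (0 : ℝ) ^ β = 0
      rw [Real.zero_rpow hβ.ne', mul_zero]
    · rw [← Real.rpow_natCast, ← Real.rpow_add e]
      push_cast [Nat.cast_sub hN]
      rfl
  exact le_antisymm (Measure.mkMetric_mono (key.mono fun t ht => ht.le))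
    (Measure.mkMetric_mono (key.mono fun t ht => ht.ge))

lemma modAt_of_holder {Ω : Set (E N)} (ho : IsOpen Ω) {c : ℝ} (μ : SignedMeasure (E N))
    {β K : ℝ≥0} {u : E N → ℝ} (hu : HolderOnWith K β u Ω)
    (he : ∀ᵐ x ∂volume.restrict Ω, pot c μ x = u x) {x : E N} (hx : x ∈ Ω) :
    ModAt c μ (fun r : ℝ => r ^ (β : ℝ)) K x := by
  obtain ⟨δ, hδ, hsub⟩ := Metric.isOpen_iff.1 ho x hx
  refine ⟨u x, δ, hδ, ?_⟩
  filter_upwards [ae_restrict_of_ae_restrict_of_subset hsub he,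
    ae_restrict_mem measurableSet_ball] with y hy hyb
  rw [hy, ← Real.dist_eq]
  exact hu.dist_le (hsub hyb) hx

end Pool.Agent.H85.HZ
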