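import Mathlib

/-!
# Generalised Hausdorff measures and densities
-/

set_option autoImplicit false

namespace Pool.Agent.H85.HZ

open MeasureTheory Filter Topology Metric Set
open scoped ENNReal NNReal

/-- A gauge: a positive increasing doubling function on `(0, ∞)` which tends to `0` at `0`. -/
structure IsGauge (D : ℝ) (h : ℝ → ℝ) : Prop where
  zero : h 0 = 0
  pos : ∀ r, 0 < r → 0 < h r
  mono : ∀ r s, 0 ≤ r → r ≤ s → h r ≤ h s
  dbl : ∀ r, 0 < r → h (2 * r) ≤ D * h r
  lim : Tendsto h (𝓝[>] 0) (𝓝 0)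

lemma IsGauge.one_le {D : ℝ} {h : ℝ → ℝ} (H : IsGauge D h) : 1 ≤ D := by
  have h1 := H.pos 1 one_pos
  have h2 := H.mono 1 (2 * 1) zero_le_one (by norm_num)
  have h3 := H.dbl 1 one_pos
  by_contra hD
  push Not at hD
  nlinarith

lemma IsGauge.nonneg {D : ℝ} {h : ℝ → ℝ} (H : IsGauge D h) {r : ℝ} (hr : 0 ≤ r) : 0 ≤ h r := by
  have := H.mono 0 r le_rfl hr
  rwa [H.zero] at this

/-- The Hausdorff measure with the gauge function `h`. -/
noncomputable def HG {X : Type*} [EMetricSpace X] [MeasurableSpace X] [BorelSpace X]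
    (h : ℝ → ℝ) : Measure X :=
  Measure.mkMetric fun t => ENNReal.ofReal (h t.toReal)

lemma iter' {a h : ℝ → ℝ} {D C M δ : ℝ} (hh : IsGauge D h) (hδ : 0 < δ) (hC : 0 ≤ C)
    (hM : ∀ r, a r ≤ M) (hM0 : 0 ≤ M)
    (H : ∀ r ∈ Ioo 0 δ, a r ≤ C * h r + (2 * D)⁻¹ * a (2 * r)) {ε : ℝ} (hε : 0 < ε) :
    ∃ η > 0, ∀ r ∈ Ioo 0 η, a r ≤ (2 * C + ε) * h r := by
  have hD : 0 < D := by linarith [hh.one_le]
  have step : ∀ B r, 0 ≤ B → r ∈ Ioo 0 δ → a (2 * r) ≤ B * h (2 * r) → a r ≤ (C + B / 2) * h r :=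
    fun B r hB0 hr hB => by
      refine (H r hr).trans ?_
      have h1 : a (2 * r) ≤ B * (D * h r) := hB.trans (by gcongr; exact hh.dbl r hr.1)
      have : (2 * D)⁻¹ * a (2 * r) ≤ B / 2 * h r := by
        rw [inv_mul_le_iff₀ (by positivity)]; linarith
      linarith
  have hhδ := hh.pos δ hδ
  set B := 2 * C + M / h δ with hB
  have hB0 : 0 ≤ B := by positivity
  have h1 : ∀ k : ℕ, ∀ r, 0 < r → δ ≤ 2 ^ k * r → a r ≤ B * h r := fun k => by
    have base : ∀ r, δ ≤ r → a r ≤ B * h r := fun r hr => by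
      have h0 := hh.mono δ r hδ.le hr
      have : M ≤ M / h δ * h r := by
        rw [div_mul_eq_mul_div, le_div_iff₀ hhδ]
        gcongr
      have h2 : 0 ≤ 2 * C * h r := by
        have := hh.nonneg (hδ.le.trans hr); positivity
      rw [hB, add_mul]; linarith [hM r]
    induction k with
    | zero => exact fun r _ hr => base r (by simpa using hr)
    | succ k ih =>
      intro r hr hk
      rcases le_or_gt δ r with e | e
      · exact base r e
      · refine (step B r hB0 ⟨hr, e⟩ (ih _ (by linarith)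
          (by rw [pow_succ] at hk; linarith))).trans ?_
        have : 0 ≤ M / h δ := by positivity
        have := hh.nonneg hr.le
        gcongr; linarith
  have h2 : ∀ k : ℕ, ∃ η > 0, ∀ r ∈ Ioo 0 η, a r ≤ (2 * C + B / 2 ^ k) * h r := fun k => by
    induction k with
    | zero =>
      refine ⟨1, one_pos, fun r hr => ?_⟩
      obtain ⟨k, hk⟩ := pow_unbounded_of_one_lt (δ / r) (one_lt_two (α := ℝ))
      refine (h1 k r hr.1 ((div_lt_iff₀ hr.1).1 hk).le).trans ?_
      have := hh.nonneg hr.1.le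
      gcongr; simp; linarith
    | succ k ih =>
      obtain ⟨η, h0, ih⟩ := ih
      refine ⟨min δ (η / 2), by positivity, fun r hr => ?_⟩
      have := lt_min_iff.1 hr.2
      refine (step _ r (by positivity) ⟨hr.1, this.1⟩
        (ih _ ⟨by linarith [hr.1], by linarith⟩)).trans_eq ?_
      rw [pow_succ]; ring
  obtain ⟨k, hk⟩ := pow_unbounded_of_one_lt (B / ε) (one_lt_two (α := ℝ))
  obtain ⟨η, h0, h3⟩ := h2 k
  refine ⟨η, h0, fun r hr => (h3 r hr).trans ?_⟩
  have := hh.nonneg hr.1.le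
  gcongr
  rw [div_lt_iff₀ hε] at hk
  rw [div_le_iff₀ (by positivity)]
  linarith

section

variable {X : Type*} [MetricSpace X] [MeasurableSpace X] [BorelSpace X]

/-- The set where the balls of radius at most `1 / (n + 1)` have measure at most `C h`. -/
def AS (p : Measure X) (h : ℝ → ℝ) (C : ℝ) (n : ℕ) : Set X :=
  {x | ∀ r ∈ Ioc 0 (1 / (n + 1 : ℝ)), p.real (closedBall x r) ≤ C * h r}

lemma AS_le (p : Measure X) [IsFiniteMeasure p] {h : ℝ → ℝ} {D C : ℝ} (hh : IsGauge D h)
    (hC : 0 < C) (n : ℕ) : p.restrict (AS p h C n) ≤ ENNReal.ofReal C • HG h := by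
  have hC' : ENNReal.ofReal C ≠ 0 := by simpa using hC
  have h2 : (ENNReal.ofReal C)⁻¹ • p.restrict (AS p h C n) ≤ HG h := by
    refine Measure.le_mkMetric _ _ (ENNReal.ofReal (1 / (n + 1 : ℝ))) (by
      simp; positivity) fun S hS => ?_
    rw [Measure.smul_apply, smul_eq_mul]
    rcases (closure S ∩ AS p h C n).eq_empty_or_nonempty with e | ⟨x, hx, hx'⟩
    · have : p.restrict (AS p h C n) S = 0 := measure_mono_null subset_closure (by
        rw [Measure.restrict_apply isClosed_closure.measurableSet, e, measure_empty])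
      simp [this]
    have ht : ediam S ≠ ⊤ := ne_top_of_le_ne_top ENNReal.ofReal_ne_top hS
    have hd : diam S ≤ 1 / (n + 1 : ℝ) := ENNReal.toReal_le_of_le_ofReal (by positivity) hS
    have hsub : S ⊆ closedBall x (diam S) := fun y hy => by
      rw [← diam_closure]
      exact dist_le_diam_of_mem' (by rwa [ediam_closure]) (subset_closure hy) hx
    have hx'' : p.real (closedBall x (diam S)) ≤ C * h (diam S) := by
      rcases diam_nonneg (s := S) |>.eq_or_lt with e | e
      · rw [← e, hh.zero, mul_zero]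
        have t : Tendsto (fun r : ℝ => C * h r) (𝓝[>] 0) (𝓝 (C * 0)) := hh.lim.const_mul C
        rw [mul_zero] at t
        refine ge_of_tendsto t ?_
        filter_upwards [Ioo_mem_nhdsGT (show (0 : ℝ) < 1 / (n + 1 : ℝ) by positivity)] with r hr
        exact (measureReal_mono (closedBall_subset_closedBall hr.1.le)).trans
          (hx' r ⟨hr.1, hr.2.le⟩)
      · exact hx' _ ⟨e, hd⟩
    rw [ENNReal.inv_mul_le_iff hC' ENNReal.ofReal_ne_top]
    calc p.restrict (AS p h C n) S ≤ p (closedBall x (diam S)) :=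
          (Measure.restrict_le_self S).trans (measure_mono hsub)
      _ ≤ ENNReal.ofReal (C * h (diam S)) := by
          rw [← ofReal_measureReal]
          exact ENNReal.ofReal_le_ofReal hx''
      _ = _ := by
          rw [ENNReal.ofReal_mul hC.le]
          rfl
  refine Measure.le_iff.2 fun S hS => ?_
  have := h2 S
  rwa [Measure.smul_apply, smul_eq_mul, ENNReal.inv_mul_le_iff hC' ENNReal.ofReal_ne_top] at this

lemma AS_mono (p : Measure X) {h : ℝ → ℝ} {D : ℝ} (hh : IsGauge D h) {C C' : ℝ} (hC : C ≤ C')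
    {n m : ℕ} (hnm : n ≤ m) : AS p h C n ⊆ AS p h C' m := fun x hx r hr => by
  refine (hx r ⟨hr.1, hr.2.trans (by gcongr)⟩).trans ?_
  have := hh.nonneg hr.1.le
  gcongr

/-- uniform bound -/
lemma frost_unif (p : Measure X) [IsFiniteMeasure p] {h : ℝ → ℝ} {D C : ℝ} (hh : IsGauge D h)
    (hC : 0 < C)
    (H : ∀ᵐ x ∂p, ∀ ε > 0, ∃ η > 0, ∀ r ∈ Ioo 0 η, p.real (closedBall x r) ≤ (C + ε) * h r) :
    p ≤ ENNReal.ofReal C • HG h := by
  have h1 : ∀ ε > 0, p ≤ ENNReal.ofReal (C + ε) • HG h := fun ε hε => by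
    have h1 : ∀ᵐ x ∂p, x ∈ ⋃ n, AS p h (C + ε) n := H.mono fun x hx => by
      obtain ⟨η, h0, hx⟩ := hx ε hε
      obtain ⟨n, hn⟩ := exists_nat_one_div_lt h0
      exact mem_iUnion.2 ⟨n, fun r hr => hx r ⟨hr.1, hr.2.trans_lt hn⟩⟩
    refine Measure.le_iff.2 fun S hS => ?_
    calc p S ≤ p (⋃ n, S ∩ AS p h (C + ε) n) := measure_mono_ae (h1.mono fun x hx hx' => by
          obtain ⟨n, hn⟩ := mem_iUnion.1 hx
          exact mem_iUnion.2 ⟨n, hx', hn⟩)
      _ = ⨆ n, p (S ∩ AS p h (C + ε) n) := Monotone.measure_iUnion fun n m k =>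
          inter_subset_inter_right _ (AS_mono p hh le_rfl k)
      _ ≤ _ := iSup_le fun n => by
          have := AS_le p hh (show 0 < C + ε by positivity) n S
          rwa [Measure.restrict_apply hS] at this
  refine Measure.le_iff.2 fun S hS => ?_
  rw [Measure.smul_apply, smul_eq_mul]
  by_cases ht : HG h S = ⊤
  · rw [ht, ENNReal.mul_top (by simpa using hC)]
    exact le_top
  have h2 : Tendsto (fun ε : ℝ => ENNReal.ofReal (C + ε) * HG h S) (𝓝[>] 0)
      (𝓝 (ENNReal.ofReal (C + 0) * HG h S)) := by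
    refine ENNReal.Tendsto.mul_const ?_ (Or.inr ht)
    refine (ENNReal.continuous_ofReal.tendsto _).comp ?_
    exact tendsto_nhdsWithin_of_tendsto_nhds (Continuous.tendsto (by fun_prop) 0)
  rw [add_zero] at h2
  refine ge_of_tendsto h2 ?_
  filter_upwards [self_mem_nhdsWithin] with ε hε
  exact h1 ε hε S

/-- pointwise bound -/
lemma frost_seq (p : Measure X) [IsFiniteMeasure p] {h : ℝ → ℝ} {D : ℝ} (hh : IsGauge D h)
    (H : ∀ᵐ x ∂p, ∃ C η : ℝ, 0 < η ∧ ∀ r ∈ Ioo 0 η, p.real (closedBall x r) ≤ C * h r)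
    (b : ℝ≥0) (hb : 0 < b) :
    ∃ T : ℕ → Set X, (∀ n, MeasurableSet (T n)) ∧
      (∀ n : ℕ, p.restrict (T n) ≤ (n : ℝ≥0∞) • (b : ℝ≥0∞) • HG h) ∧
      Tendsto (fun n => p (T n)ᶜ) atTop (𝓝 0) := by
  set A : ℕ → Set X := fun n => AS p h (n * b) n with hA
  have hb' : (0 : ℝ) < b := hb
  have hAm : Monotone A := fun n m hnm => AS_mono p hh (by gcongr) hnm
  have h1 : ∀ᵐ x ∂p, x ∈ ⋃ n, A n := H.mono fun x ⟨C, η, h0, hx⟩ => by
    obtain ⟨n, hn⟩ := exists_nat_one_div_lt h0
    obtain ⟨m, hm⟩ := exists_nat_ge (C / b)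
    refine mem_iUnion.2 ⟨max n m, fun r hr => ?_⟩
    have e1 : (1 : ℝ) / ((max n m : ℕ) + 1) ≤ 1 / (n + 1) := by
      have : (n : ℝ) ≤ (max n m : ℕ) := by exact_mod_cast le_max_left n m
      gcongr
    refine (hx r ⟨hr.1, hr.2.trans_lt (e1.trans_lt hn)⟩).trans ?_
    have := hh.nonneg hr.1.le
    have e2 : (m : ℝ) ≤ (max n m : ℕ) := by exact_mod_cast le_max_right n m
    have e3 : C ≤ m * b := (div_le_iff₀ hb').1 hm
    gcongr
    exact e3.trans (by gcongr)
  refine ⟨fun n => if n = 0 then ∅ else toMeasurable p (A n), fun n => ?_, fun n => ?_, ?_⟩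
  · beta_reduce; split_ifs
    · exact MeasurableSet.empty
    · exact measurableSet_toMeasurable _ _
  · beta_reduce; split_ifs with h0
    · rw [Measure.restrict_empty]; exact bot_le
    · rw [Measure.restrict_toMeasurable (measure_ne_top p _)]
      have hn : (0 : ℝ) < n := by exact_mod_cast Nat.pos_of_ne_zero h0
      refine (AS_le p hh (show 0 < (n * b : ℝ) by positivity) n).trans_eq ?_
      rw [smul_smul, ENNReal.ofReal_mul hn.le, ENNReal.ofReal_natCast, ENNReal.ofReal_coe_nnreal]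
  · have h2 : Tendsto (fun n => p (A n)) atTop (𝓝 (p (⋃ n, A n))) :=
      tendsto_measure_iUnion_atTop hAm
    have h3 : p (⋃ n, A n) = p univ := le_antisymm (measure_mono (subset_univ _))
      (measure_mono_ae (h1.mono fun x hx _ => hx))
    rw [h3] at h2
    have h4 : Tendsto (fun n => p univ - p (A n)) atTop (𝓝 (p univ - p univ)) :=
      ENNReal.Tendsto.sub tendsto_const_nhds h2 (Or.inl (measure_ne_top p _))
    rw [tsub_self] at h4
    refine h4.congr' ?_
    filter_upwards [eventually_ge_atTop 1] with n hn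
    have hn0 : n ≠ 0 := by omega
    simp only [hn0, if_false]
    rw [measure_compl (measurableSet_toMeasurable _ _) (measure_ne_top p _),
      measure_toMeasurable]

end

end Pool.Agent.H85.HZ
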