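import Pool.Agent.H85.HZ.Meas
import Pool.Graph.R_pool_sql_team_39128cda.H.MP_19b229_an.B

/-!
# Potentials with a modulus of continuity at a point
-/

set_option autoImplicit false

namespace Pool.Agent.H85.HZ

open MeasureTheory Filter Topology Metric Set Pool.Agent.H.MP_19b229_an
open scoped ENNReal NNReal

variable {N : ℕ}

/-- The density argument. -/
lemma densAt (p q : Measure (E N)) [IsFiniteMeasure p] [IsFiniteMeasure q] (hpq : q ⟂ₘ p)
    {h : ℝ → ℝ} {D : ℝ} (hh : IsGauge D h) : ∀ᵐ x ∂p, ∀ C δ : ℝ, 0 ≤ C → 0 < δ →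
      (∀ r ∈ Ioo 0 δ, ∫ y, ph N (r⁻¹ • (y - x)) ∂p - ∫ y, ph N (r⁻¹ • (y - x)) ∂q ≤ C * h r) →
      ∀ ε > 0, ∃ η > 0, ∀ r ∈ Ioo 0 η, p.real (closedBall x r) ≤ (2 * C + ε) * h r := by
  have hD : 0 < D := by linarith [hh.one_le]
  filter_upwards [Besicovitch.ae_tendsto_rnDeriv q p, hpq.rnDeriv_ae_eq_zero]
    with x h1 h2 C δ hC h0 hx ε hε
  rw [h2, Pi.zero_apply] at h1
  have h3 := h1.eventually (gt_mem_nhds (show (0 : ℝ≥0∞) < ENNReal.ofReal (2 * D)⁻¹ by
    simp; positivity))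
  obtain ⟨δ', h4, h5⟩ := mem_nhdsGT_iff_exists_Ioo_subset.1 h3
  have h4' : 0 < δ' := h4
  refine iter' (M := p.real univ) (δ := min δ (δ' / 2)) hh (by positivity) hC
    (fun r => measureReal_mono (subset_univ _)) (by positivity) (fun r hr => ?_) hε
  have hr0 := hr.1
  have hr1 := lt_min_iff.1 hr.2
  have hc : Continuous fun y : E N => ph N (r⁻¹ • (y - x)) := (ph N).continuous.comp (by fun_prop)
  have hn : ∀ y : E N, ‖r⁻¹ • (y - x)‖ = dist y x / r := fun y => by
    rw [norm_smul, norm_inv, Real.norm_of_nonneg hr0.le, dist_eq_norm, div_eq_inv_mul]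
  have k1 : p.real (closedBall x r) ≤ ∫ y, ph N (r⁻¹ • (y - x)) ∂p := by
    rw [← integral_indicator_one measurableSet_closedBall]
    refine integral_mono_of_nonneg (Eventually.of_forall fun y =>
      indicator_nonneg (fun _ _ => zero_le_one) _) ((integrable_const 1).mono'
        hc.aestronglyMeasurable (Eventually.of_forall fun y => by
          rw [Real.norm_of_nonneg (ph N).nonneg]; exact (ph N).le_one))
      (Eventually.of_forall fun y => ?_)
    by_cases hy : y ∈ closedBall x r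
    · simp only [indicator_of_mem hy]
      rw [(ph N).one_of_mem_closedBall (by
        rw [mem_closedBall_zero_iff, hn]; exact (div_le_one hr0).2 hy)]
      rfl
    · simp only [indicator_of_notMem hy]
      exact (ph N).nonneg
  have k2 : ∫ y, ph N (r⁻¹ • (y - x)) ∂q ≤ q.real (closedBall x (2 * r)) := by
    rw [← integral_indicator_one measurableSet_closedBall]
    refine integral_mono_of_nonneg (Eventually.of_forall fun y => (ph N).nonneg)
      ((integrable_const 1).indicator measurableSet_closedBall)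
      (Eventually.of_forall fun y => ?_)
    by_cases hy : y ∈ closedBall x (2 * r)
    · simp only [indicator_of_mem hy]
      exact (ph N).le_one
    simp only [indicator_of_notMem hy]
    refine ((ph N).zero_of_le_dist ?_).le
    rw [dist_zero_right, hn]
    exact (le_div_iff₀ hr0).2 (not_le.1 hy).le
  have k3 : q.real (closedBall x (2 * r)) ≤ (2 * D)⁻¹ * p.real (closedBall x (2 * r)) := by
    have k4 : q (closedBall x (2 * r)) / p (closedBall x (2 * r)) < ENNReal.ofReal (2 * D)⁻¹ :=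
      h5 ⟨by linarith, by linarith⟩
    have k5 := (ENNReal.div_le_iff_le_mul (Or.inr ENNReal.ofReal_ne_top)
      (Or.inl (measure_ne_top _ _))).1 k4.le
    have k6 := ENNReal.toReal_mono (ENNReal.mul_ne_top ENNReal.ofReal_ne_top
      (measure_ne_top _ _)) k5
    rwa [ENNReal.toReal_mul, ENNReal.toReal_ofReal (by positivity)] at k6
  linarith [hx r ⟨hr0, hr1.1⟩]

/-- The potential of `μ` has the modulus of continuity `K ω` at the point `x`: for some number `a`
and some `δ > 0`, `|u(y) - a| ≤ K ω(|y - x|)` for almost every `y` in the ball `B(x, δ)`. -/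
def ModAt (c : ℝ) (μ : SignedMeasure (E N)) (ω : ℝ → ℝ) (K : ℝ) (x : E N) : Prop :=
  ∃ a δ : ℝ, 0 < δ ∧ ∀ᵐ y ∂volume.restrict (ball x δ), |pot c μ y - a| ≤ K * ω (dist y x)

/-- The gauge function `r ^ (N - 2) ω(r)`. -/
noncomputable def gau (N : ℕ) (ω : ℝ → ℝ) (r : ℝ) : ℝ := r ^ (N - 2) * ω r

lemma gau_isGauge (h2 : 2 ≤ N) {D : ℝ} {ω : ℝ → ℝ} (hω : IsGauge D ω) :
    IsGauge (2 ^ (N - 2) * D) (gau N ω) where
  zero := by rw [gau, hω.zero, mul_zero]
  pos r hr := mul_pos (pow_pos hr _) (hω.pos r hr)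
  mono r s hr hrs := by
    have := hω.mono r s hr hrs
    have := hω.nonneg hr
    unfold gau
    gcongr
    exact pow_nonneg (hr.trans hrs) _
  dbl r hr := by
    have := hω.dbl r hr
    unfold gau
    rw [mul_pow]
    calc 2 ^ (N - 2) * r ^ (N - 2) * ω (2 * r) ≤ 2 ^ (N - 2) * r ^ (N - 2) * (D * ω r) := by
          gcongr
      _ = _ := by ring
  lim := by
    have h1 : Tendsto (fun r : ℝ => r ^ (N - 2)) (𝓝[>] 0) (𝓝 (0 ^ (N - 2))) :=
      tendsto_nhdsWithin_of_tendsto_nhds ((continuous_pow _).tendsto 0)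
    have := h1.mul hω.lim
    rwa [mul_zero] at this

/-- The constant. -/
noncomputable def Lc (N : ℕ) (D c κ : ℝ) : ℝ := D * (∫ z, ‖DD N z‖) / |c * κ|

lemma keyAt (hN : 2 ≤ N) {κ : ℝ} (hκ0 : κ ≠ 0)
    (hκ : ∀ w, ∫ z, Gam N (z - w) * DD N z = κ * ph N w) {Ω : Set (E N)}
    (hb : Bornology.IsBounded Ω) {c : ℝ} (hc : c ≠ 0) (μ : SignedMeasure (E N))
    (hμ : μ.totalVariation Ωᶜ = 0) {D : ℝ} {ω : ℝ → ℝ} (hω : IsGauge D ω) {K : ℝ} (hK : 0 ≤ K)
    {x : E N} (hx : ModAt c μ ω K x) :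
    ∃ δ > 0, ∀ r ∈ Ioo 0 δ, |∫ y, ph N (r⁻¹ • (y - x)) ∂μ.toJordanDecomposition.posPart -
      ∫ y, ph N (r⁻¹ • (y - x)) ∂μ.toJordanDecomposition.negPart| ≤
        Lc N D c κ * K * gau N ω r := by
  obtain ⟨R, hR⟩ := hb.exists_norm_le
  rw [SignedMeasure.totalVariation, Measure.add_apply, add_eq_zero] at hμ
  have hp : ∀ᵐ y ∂μ.toJordanDecomposition.posPart, y ∈ Ω := hμ.1
  have hq : ∀ᵐ y ∂μ.toJordanDecomposition.negPart, y ∈ Ω := hμ.2
  obtain ⟨a, δ, hδ, he⟩ := hx
  unfold pot at he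
  set p := μ.toJordanDecomposition.posPart
  set q := μ.toJordanDecomposition.negPart
  refine ⟨δ / 2, by positivity, fun r hr => ?_⟩
  have hr0 := hr.1
  obtain ⟨i1, e1⟩ := pair hN hκ p (hp.mono hR) x hr0
  obtain ⟨i2, e2⟩ := pair hN hκ q (hq.mono hR) x hr0
  have hT : Measure.QuasiMeasurePreserving (fun z : E N => x + r • z) volume volume :=
    (measurePreserving_add_left volume x).quasiMeasurePreserving.comp
      ⟨by fun_prop, by
        rw [Measure.map_addHaar_smul _ hr0.ne']; exact Measure.smul_absolutelyContinuous⟩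
  have he' := hT.ae ((ae_restrict_iff' measurableSet_ball).1 he)
  have iD := DD_c.integrable_of_hasCompactSupport (μ := volume) (DD_s (N := N))
  have e3 : c * (r ^ (2 - N : ℝ) * κ) * (∫ y, ph N (r⁻¹ • (y - x)) ∂p -
      ∫ y, ph N (r⁻¹ • (y - x)) ∂q) = ∫ z, c * ((∫ y, Gam N (x + r • z - y) ∂p) * DD N z) -
        c * ((∫ y, Gam N (x + r • z - y) ∂q) * DD N z) - a * DD N z := by
    have i3 : Integrable fun z => c * ((∫ y, Gam N (x + r • z - y) ∂p) * DD N z) -
        c * ((∫ y, Gam N (x + r • z - y) ∂q) * DD N z) := (i1.const_mul c).sub (i2.const_mul c)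
    rw [integral_sub i3 (iD.const_mul _),
      integral_sub (i1.const_mul c) (i2.const_mul c), integral_const_mul, integral_const_mul,
      integral_const_mul, e1, e2, DD_int]
    ring
  have e4 := norm_integral_le_of_norm_le (iD.norm.const_mul (K * (D * ω r)))
    (f := fun z => c * ((∫ y, Gam N (x + r • z - y) ∂p) * DD N z) -
        c * ((∫ y, Gam N (x + r • z - y) ∂q) * DD N z) - a * DD N z)
    (he'.mono fun z hz => by
      rcases lt_or_ge 2 ‖z‖ with k | k
      · simp [DD_z k]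
      have hd0 : dist (x + r • z) x ≤ 2 * r := by
        rw [dist_self_add_left, norm_smul, Real.norm_of_nonneg hr0.le]; nlinarith
      have hz1 : x + r • z ∈ ball x δ := by rw [mem_ball]; linarith [hr.2]
      have := hz hz1
      rw [integral_const_mul, integral_const_mul] at this
      rw [← mul_assoc, ← mul_assoc, ← sub_mul, ← sub_mul, norm_mul, Real.norm_eq_abs (_ - a)]
      have h3 : ω (dist (x + r • z) x) ≤ D * ω r :=
        (hω.mono _ _ dist_nonneg hd0).trans (hω.dbl r hr0)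
      gcongr
      exact this.trans (by gcongr))
  rw [← e3, integral_const_mul, norm_mul, Real.norm_eq_abs, Real.norm_eq_abs,
    mul_left_comm c, abs_mul, abs_of_pos (Real.rpow_pos_of_pos hr0 _)] at e4
  have hck : 0 < |c * κ| := abs_pos.2 (mul_ne_zero hc hκ0)
  have e5 : r ^ (2 - N : ℝ) * r ^ (N - 2) = 1 := by
    rw [← Real.rpow_natCast, ← Real.rpow_add hr0]
    push_cast [Nat.cast_sub hN]
    rw [show (2 - N : ℝ) + (N - 2) = 0 by ring, Real.rpow_zero]
  unfold Lc gau
  rw [div_mul_eq_mul_div, div_mul_eq_mul_div, le_div_iff₀ hck]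
  refine le_of_mul_le_mul_left ?_ (Real.rpow_pos_of_pos hr0 (2 - N : ℝ))
  calc r ^ (2 - N : ℝ) * (|∫ y, ph N (r⁻¹ • (y - x)) ∂p - ∫ y, ph N (r⁻¹ • (y - x)) ∂q| *
        |c * κ|) = r ^ (2 - N : ℝ) * |c * κ| *
          |∫ y, ph N (r⁻¹ • (y - x)) ∂p - ∫ y, ph N (r⁻¹ • (y - x)) ∂q| := by ring
    _ ≤ K * (D * ω r) * ∫ z, ‖DD N z‖ := e4
    _ = (r ^ (2 - N : ℝ) * r ^ (N - 2)) * (K * (D * ω r) * ∫ z, ‖DD N z‖) := by
        rw [e5, one_mul]
    _ = _ := by ring

end Pool.Agent.H85.HZ
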